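import Mathlib

/-!
Convolution powers of a weight function on `ZMod n`.
-/

namespace Q151.Dice

open Finset

variable {n : ℕ} [NeZero n]

/-- `cp p r a` is the value at `a` of the `r`-fold convolution power of `p`. -/
noncomputable def cp (p : ZMod n → ℝ) : ℕ → ZMod n → ℝ
  | 0, a => if a = 0 then 1 else 0
  | r + 1, a => ∑ b, p b * cp p r (a - b)

lemma cp_zero (p : ZMod n → ℝ) (a : ZMod n) : cp p 0 a = if a = 0 then 1 else 0 := rfl

lemma cp_succ (p : ZMod n → ℝ) (r : ℕ) (a : ZMod n) :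
    cp p (r + 1) a = ∑ b, p b * cp p r (a - b) := rfl

lemma cp_nonneg {p : ZMod n → ℝ} (hp : ∀ a, 0 ≤ p a) (r : ℕ) (a : ZMod n) : 0 ≤ cp p r a := by
  induction r generalizing a with
  | zero => rw [cp_zero]; split_ifs <;> norm_num
  | succ r ih => exact Finset.sum_nonneg fun b _ => mul_nonneg (hp b) (ih _)

lemma cp_total (p : ZMod n → ℝ) (r : ℕ) : ∑ a, cp p r a = (∑ a, p a) ^ r := by
  induction r with
  | zero => simp [cp_zero]
  | succ r ih =>
    simp only [cp_succ]
    rw [Finset.sum_comm, pow_succ', Finset.sum_mul]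
    refine Finset.sum_congr rfl fun b _ => ?_
    rw [← Finset.mul_sum]
    congr 1
    rw [← ih]
    exact Fintype.sum_equiv (Equiv.subRight b) _ _ fun x => rfl

lemma continuous_cp (r : ℕ) (a : ZMod n) : Continuous fun p : ZMod n → ℝ => cp p r a := by
  induction r generalizing a with
  | zero => simp only [cp_zero]; exact continuous_const
  | succ r ih =>
    simp only [cp_succ]
    exact continuous_finsetSum _ fun b _ => (continuous_apply b).mul (ih _)

lemma cp_shift (p : ZMod n → ℝ) (c : ZMod n) (r : ℕ) (a : ZMod n) :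
    cp (fun t => p (t + c)) r a = cp p r (a + r • c) := by
  induction r generalizing a with
  | zero => simp [cp_zero]
  | succ r ih =>
    simp only [cp_succ]
    refine Fintype.sum_equiv (Equiv.addRight c) _ _ fun x => ?_
    rw [ih]
    simp only [Equiv.coe_addRight]
    congr 2
    rw [succ_nsmul]; ring

/-- The perturbed weight. -/
lemma cp_perturb {p : ZMod n → ℝ} (hp : ∀ a, 0 ≤ p a) (i : ZMod n) {e : ℝ} (h0 : 0 ≤ e)
    (h1 : e ≤ 1) (r : ℕ) (a : ZMod n) :
    (1 - e) ^ (r + 1) * cp p (r + 1) a + (r + 1) * e * (1 - e) ^ r * cp p r (a - i) ≤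
      cp (fun t => (1 - e) * p t + e * (if t = i then 1 else 0)) (r + 1) a := by
  have key : ∀ (r : ℕ) (a : ZMod n),
      cp (fun t => (1 - e) * p t + e * (if t = i then 1 else 0)) (r + 1) a =
      (1 - e) * ∑ b, p b * cp (fun t => (1 - e) * p t + e * (if t = i then 1 else 0)) r (a - b)
        + e * cp (fun t => (1 - e) * p t + e * (if t = i then 1 else 0)) r (a - i) := by
    intro r a
    rw [cp_succ, Finset.mul_sum]
    simp only [add_mul, Finset.sum_add_distrib]
    congr 1
    · exact Finset.sum_congr rfl fun b _ => by ring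
    · rw [Finset.sum_eq_single i]
      · simp
      · intro b _ hb; simp [hb]
      · intro h; exact absurd (Finset.mem_univ i) h
  have hp' : ∀ t, 0 ≤ (1 - e) * p t + e * (if t = i then 1 else 0) := by
    intro t
    have := mul_nonneg (sub_nonneg.2 h1) (hp t)
    split_ifs <;> nlinarith
  have hmul : ∀ (r : ℕ) (a : ZMod n), (1 - e) ^ r * cp p r a ≤
      cp (fun t => (1 - e) * p t + e * (if t = i then 1 else 0)) r a := by
    intro r
    induction r with
    | zero => intro a; simp [cp_zero]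
    | succ r ih =>
      intro a
      rw [key]
      have h2 : 0 ≤ e * cp (fun t => (1 - e) * p t + e * (if t = i then 1 else 0)) r (a - i) :=
        mul_nonneg h0 (cp_nonneg hp' _ _)
      have h3 : (1 - e) ^ (r + 1) * cp p (r + 1) a = (1 - e) * ∑ b, p b * ((1 - e) ^ r * cp p r (a - b)) := by
        rw [cp_succ, Finset.mul_sum, Finset.mul_sum]
        exact Finset.sum_congr rfl fun b _ => by ring
      rw [h3]
      have h4 : ∑ b, p b * ((1 - e) ^ r * cp p r (a - b)) ≤
          ∑ b, p b * cp (fun t => (1 - e) * p t + e * (if t = i then 1 else 0)) r (a - b) :=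
        Finset.sum_le_sum fun b _ => mul_le_mul_of_nonneg_left (ih _) (hp b)
      have h5 := mul_le_mul_of_nonneg_left h4 (sub_nonneg.2 h1)
      linarith
  induction r generalizing a with
  | zero =>
    rw [key]
    have h2 := hmul 0 (a - i)
    have h3 : ∑ b, p b * cp p 0 (a - b) ≤ ∑ b, p b * cp (fun t => (1 - e) * p t + e * (if t = i then 1 else 0)) 0 (a - b) :=
      Finset.sum_le_sum fun b _ => mul_le_mul_of_nonneg_left (by simpa using hmul 0 (a - b)) (hp b)
    have h4 := mul_le_mul_of_nonneg_left h3 (sub_nonneg.2 h1)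
    have h5 : cp p (0 + 1) a = ∑ b, p b * cp p 0 (a - b) := rfl
    rw [h5]
    have h6 := mul_le_mul_of_nonneg_left h2 h0
    simp only [pow_zero, one_mul, pow_one, zero_add, Nat.cast_zero, mul_one] at *
    linarith
  | succ r ih =>
    rw [key]
    have h3 : ∑ b, p b * ((1 - e) ^ (r + 1) * cp p (r + 1) (a - b) +
          (r + 1) * e * (1 - e) ^ r * cp p r (a - b - i)) ≤
        ∑ b, p b * cp (fun t => (1 - e) * p t + e * (if t = i then 1 else 0)) (r + 1) (a - b) :=
      Finset.sum_le_sum fun b _ => mul_le_mul_of_nonneg_left (ih _) (hp b)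
    have h4 := mul_le_mul_of_nonneg_left h3 (sub_nonneg.2 h1)
    have h6 := mul_le_mul_of_nonneg_left (hmul (r + 1) (a - i)) h0
    have h7 : (1 - e) * ∑ b, p b * ((1 - e) ^ (r + 1) * cp p (r + 1) (a - b) +
          (r + 1) * e * (1 - e) ^ r * cp p r (a - b - i)) =
        (1 - e) ^ (r + 1 + 1) * cp p (r + 1 + 1) a + (r + 1) * e * (1 - e) ^ (r + 1) * cp p (r + 1) (a - i) := by
      rw [cp_succ p (r + 1) a, cp_succ p r (a - i)]
      simp only [Finset.mul_sum, ← Finset.sum_add_distrib]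
      refine Finset.sum_congr rfl fun b _ => ?_
      have : a - b - i = a - i - b := by ring
      rw [this]; ring
    rw [h7] at h4
    push_cast
    nlinarith [h4, h6]

/-- At a maximiser of the `(N+1)`-fold convolution power at `k`. -/
lemma max_cond {p : ZMod n → ℝ} (hp : ∀ a, 0 ≤ p a) (hs : ∑ a, p a = 1) (N : ℕ) (k : ZMod n)
    (hmax : ∀ q : ZMod n → ℝ, (∀ a, 0 ≤ q a) → ∑ a, q a = 1 → cp q (N + 1) k ≤ cp p (N + 1) k)
    (i : ZMod n) : cp p N (k - i) ≤ cp p (N + 1) k := by
  set F := cp p (N + 1) k with hF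
  set G := cp p N (k - i) with hG
  have hG0 : 0 ≤ G := cp_nonneg hp _ _
  have hF0 : 0 ≤ F := cp_nonneg hp _ _
  by_contra hlt
  push Not at hlt
  -- choose e
  have hd : 0 < G - F := by linarith
  have hGpos : 0 < G := by linarith
  set e : ℝ := min (1 / (2 * (N + 1))) ((G - F) / (2 * (N + 1) * G)) with he
  have hN : (0 : ℝ) < N + 1 := by positivity
  have he0 : 0 < e := by rw [he]; exact lt_min (by positivity) (by positivity)
  have he1 : e ≤ 1 / (2 * (N + 1)) := min_le_left _ _
  have he2 : e ≤ (G - F) / (2 * (N + 1) * G) := min_le_right _ _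
  have he3 : e ≤ 1 := by
    refine he1.trans ?_
    rw [div_le_one (by positivity)]
    have : (0 : ℝ) ≤ N := Nat.cast_nonneg N
    linarith
  have h1 := cp_perturb hp i he0.le he3 N k
  have h2 := hmax (fun t => (1 - e) * p t + e * (if t = i then 1 else 0)) (by
    intro t
    have := mul_nonneg (sub_nonneg.2 he3) (hp t)
    split_ifs <;> nlinarith) (by
    rw [Finset.sum_add_distrib, ← Finset.mul_sum, ← Finset.mul_sum, hs]
    simp)
  have h3 : (1 - e) ^ (N + 1) * F + (N + 1) * e * (1 - e) ^ N * G ≤ F := h1.trans h2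
  -- Bernoulli
  have hb1 : 1 - (N + 1) * e ≤ (1 - e) ^ (N + 1) := by
    have := one_add_mul_le_pow (a := -e) (by linarith) (N + 1)
    push_cast at this
    have h' : (1 + -e) = 1 - e := by ring
    rw [h'] at this; linarith
  have hb2 : 1 - N * e ≤ (1 - e) ^ N := by
    have := one_add_mul_le_pow (a := -e) (by linarith) N
    have h' : (1 + -e) = 1 - e := by ring
    rw [h'] at this; linarith
  have h4 : (1 - (N + 1) * e) * F + (N + 1) * e * (1 - N * e) * G ≤ F := by
    have h5 := mul_le_mul_of_nonneg_right hb1 hF0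
    have h6 : (N + 1) * e * (1 - N * e) * G ≤ (N + 1) * e * (1 - e) ^ N * G := by
      have : 0 ≤ (N + 1) * e * G := by positivity
      nlinarith [mul_le_mul_of_nonneg_left hb2 this]
    linarith
  have h7 : (N + 1) * e * ((1 - N * e) * G - F) ≤ 0 := by nlinarith
  have h8 : (1 - N * e) * G - F ≤ 0 := by
    by_contra hc
    push Not at hc
    have : 0 < (N + 1) * e * ((1 - N * e) * G - F) := by positivity
    linarith
  have h9 : N * e * G ≤ (G - F) / 2 := by
    have h10 : e * (2 * (N + 1) * G) ≤ G - F := by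
      rwa [le_div_iff₀ (by positivity)] at he2
    have : 0 ≤ e * G := by positivity
    nlinarith
  linarith

lemma max_cond_eq {p : ZMod n → ℝ} (hp : ∀ a, 0 ≤ p a) (hs : ∑ a, p a = 1) (N : ℕ) (k : ZMod n)
    (hmax : ∀ q : ZMod n → ℝ, (∀ a, 0 ≤ q a) → ∑ a, q a = 1 → cp q (N + 1) k ≤ cp p (N + 1) k)
    (i : ZMod n) (hi : 0 < p i) : cp p N (k - i) = cp p (N + 1) k := by
  have h1 := max_cond hp hs N k hmax
  have h2 : ∑ b, p b * (cp p (N + 1) k - cp p N (k - b)) = 0 := by
    simp only [mul_sub, Finset.sum_sub_distrib]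
    rw [← Finset.sum_mul, hs, one_mul, cp_succ, sub_self]
  have h3 : ∀ b ∈ (Finset.univ : Finset (ZMod n)), 0 ≤ p b * (cp p (N + 1) k - cp p N (k - b)) :=
    fun b _ => mul_nonneg (hp b) (sub_nonneg.2 (h1 b))
  have h4 := (Finset.sum_eq_zero_iff_of_nonneg h3).1 h2 i (Finset.mem_univ i)
  rcases mul_eq_zero.1 h4 with h | h
  · exact absurd h hi.ne'
  · linarith

lemma supp_bound {p : ZMod n → ℝ} (hp : ∀ a, 0 ≤ p a) (hs : ∑ a, p a = 1) (N : ℕ) (k : ZMod n)
    (hmax : ∀ q : ZMod n → ℝ, (∀ a, 0 ≤ q a) → ∑ a, q a = 1 → cp q (N + 1) k ≤ cp p (N + 1) k) :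
    ((Finset.univ.filter fun i => 0 < p i).card : ℝ) * cp p (N + 1) k ≤ 1 := by
  have h1 : ∑ i, cp p N (k - i) = 1 := by
    have := cp_total p N
    rw [hs, one_pow] at this
    rw [← this]
    exact Fintype.sum_equiv (Equiv.subLeft k) _ _ fun x => rfl
  calc ((Finset.univ.filter fun i => 0 < p i).card : ℝ) * cp p (N + 1) k
      = ∑ i ∈ Finset.univ.filter fun i => 0 < p i, cp p (N + 1) k := by
        rw [Finset.sum_const, nsmul_eq_mul]
    _ = ∑ i ∈ Finset.univ.filter fun i => 0 < p i, cp p N (k - i) := by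
        refine Finset.sum_congr rfl fun i hi => ?_
        rw [max_cond_eq hp hs N k hmax i (Finset.mem_filter.1 hi).2]
    _ ≤ ∑ i, cp p N (k - i) :=
        Finset.sum_le_sum_of_subset_of_nonneg (Finset.filter_subset _ _)
          fun i _ _ => cp_nonneg hp _ _
    _ = 1 := h1

/-- existence of a maximiser -/
lemma exists_max (N : ℕ) (k : ZMod n) : ∃ p : ZMod n → ℝ, (∀ a, 0 ≤ p a) ∧ ∑ a, p a = 1 ∧
    ∀ q : ZMod n → ℝ, (∀ a, 0 ≤ q a) → ∑ a, q a = 1 → cp q (N + 1) k ≤ cp p (N + 1) k := by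
  have hc : IsCompact (stdSimplex ℝ (ZMod n)) := isCompact_stdSimplex ℝ (ZMod n)
  have hne : (stdSimplex ℝ (ZMod n)).Nonempty := ⟨_, single_mem_stdSimplex ℝ (0 : ZMod n)⟩
  obtain ⟨p, hp, hmax⟩ := hc.exists_isMaxOn hne (continuous_cp (N + 1) k).continuousOn
  exact ⟨p, hp.1, hp.2, fun q hq hq' => hmax ⟨hq, hq'⟩⟩

end Q151.Dice
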