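import Pool.Agent.Q151.Dice.Two

/-!
The maximum of the `n`-fold convolution power at a nonzero residue.
-/

namespace Q151.Dice

open Finset

/-- binomial weight -/
noncomputable def bw (N : ℕ) (x : ℝ) (j : ℕ) : ℝ := (N.choose j : ℝ) * x ^ j * (1 - x) ^ (N - j)

lemma bw_nonneg (N : ℕ) {x : ℝ} (h0 : 0 ≤ x) (h1 : x ≤ 1) (j : ℕ) : 0 ≤ bw N x j := by
  have : 0 ≤ 1 - x := by linarith
  unfold bw; positivity

lemma third_num (N : ℕ) (hN : 1 ≤ N) : (1 : ℝ) / 3 < ((N : ℝ) / (N + 1)) ^ N := by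
  have hN' : (0 : ℝ) < N := by exact_mod_cast hN
  have h1 : ((N : ℝ) + 1) / N ≤ Real.exp (1 / N) := by
    have := Real.add_one_le_exp (1 / (N : ℝ))
    have h2 : ((N : ℝ) + 1) / N = 1 / N + 1 := by field_simp; ring
    rw [h2]; exact this
  have h3 : (((N : ℝ) + 1) / N) ^ N ≤ Real.exp 1 := by
    calc (((N : ℝ) + 1) / N) ^ N ≤ (Real.exp (1 / N)) ^ N := pow_le_pow_left₀ (by positivity) h1 N
      _ = Real.exp 1 := by rw [← Real.exp_nat_mul]; congr 1; field_simp
  have h4 : Real.exp 1 < 3 := by linarith [Real.exp_one_lt_d9]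
  have h5 : ((N : ℝ) / (N + 1)) ^ N = 1 / (((N : ℝ) + 1) / N) ^ N := by
    rw [← one_div_pow, one_div_div]
  rw [h5]
  apply one_div_lt_one_div_of_lt (by positivity)
  linarith

lemma third_cmp (N : ℕ) (hN : 3 ≤ N) : (N : ℝ) / (3 * N - 1) ≤ ((N : ℝ) / (N + 1)) ^ N := by
  rcases hN.eq_or_lt with h | h
  · subst h; norm_num
  · have hN' : (4 : ℝ) ≤ N := by exact_mod_cast h
    have h1 : ((N : ℝ) + 1) / N ≤ Real.exp (1 / N) := by
      have := Real.add_one_le_exp (1 / (N : ℝ))
      have h2 : ((N : ℝ) + 1) / N = 1 / N + 1 := by field_simp; ring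
      rw [h2]; exact this
    have h3 : (((N : ℝ) + 1) / N) ^ N ≤ Real.exp 1 := by
      calc (((N : ℝ) + 1) / N) ^ N ≤ (Real.exp (1 / N)) ^ N := pow_le_pow_left₀ (by positivity) h1 N
        _ = Real.exp 1 := by rw [← Real.exp_nat_mul]; congr 1; field_simp
    have h4 : Real.exp 1 < 2.7182818286 := Real.exp_one_lt_d9
    have h5 : ((N : ℝ) / (N + 1)) ^ N = 1 / (((N : ℝ) + 1) / N) ^ N := by
      rw [← one_div_pow, one_div_div]
    rw [h5]
    have h6 : (N : ℝ) / (3 * N - 1) ≤ 4 / 11 := by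
      rw [div_le_div_iff₀ (by linarith) (by norm_num)]; linarith
    have h7 : (4 : ℝ) / 11 ≤ 1 / (((N : ℝ) + 1) / N) ^ N := by
      rw [le_div_iff₀ (by positivity)]
      linarith
    linarith

variable {n : ℕ} [NeZero n]

lemma cp_tp' (m : ZMod n) (x : ℝ) (r : ℕ) (s : ZMod n) :
    cp (tp m x) r s = ∑ j ∈ range (r + 1), bw r x j * (if j • m = s then 1 else 0) := cp_tp m x r s

lemma sum_zero_of {N : ℕ} {x : ℝ} {s m : ZMod n} (h : ∀ j, j ≤ N → j • m ≠ s) :
    cp (tp m x) N s = 0 := by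
  rw [cp_tp']
  apply Finset.sum_eq_zero
  intro j hj
  rw [if_neg (h j (by have := Finset.mem_range.1 hj; omega)), mul_zero]

lemma nsmul_self_zero (m : ZMod n) : n • m = 0 := by
  rw [nsmul_eq_mul, ZMod.natCast_self, zero_mul]

/-- four distinct residues -/
lemma four_le {N : ℕ} {x : ℝ} (h0 : 0 ≤ x) (h1 : x ≤ 1) {m k : ZMod n}
    (hm1 : m ≠ 0) (hm2 : 2 • m ≠ 0) (hm3 : 3 • m ≠ 0) :
    cp (tp m x) N k + cp (tp m x) N (k - m) + cp (tp m x) N (k - 2 • m) +
      cp (tp m x) N (k + m) ≤ 1 := by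
  have htot := cp_total (tp m x) N
  rw [tp_sum, one_pow] at htot
  have hs : ∑ a ∈ ({k, k - m, k - 2 • m, k + m} : Finset (ZMod n)), cp (tp m x) N a ≤ 1 := by
    rw [← htot]
    exact Finset.sum_le_sum_of_subset_of_nonneg (Finset.subset_univ _)
      fun i _ _ => cp_nonneg (tp_nonneg m h0 h1) _ _
  rw [Finset.sum_insert, Finset.sum_insert, Finset.sum_insert, Finset.sum_singleton] at hs
  · linarith
  · simp only [Finset.mem_singleton]
    intro h
    apply hm3
    have : k - 2 • m - (k + m) = 0 := sub_eq_zero.2 h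
    have h' : 3 • m = -(k - 2 • m - (k + m)) := by simp only [nsmul_eq_mul]; push_cast; ring
    rw [h', this, neg_zero]
  · simp only [Finset.mem_insert, Finset.mem_singleton, not_or]
    constructor
    · intro h
      apply hm1
      have : k - m - (k - 2 • m) = 0 := sub_eq_zero.2 h
      have h' : m = (k - m - (k - 2 • m)) := by simp only [nsmul_eq_mul]; push_cast; ring
      rw [h', this]
    · intro h
      apply hm2
      have : k - m - (k + m) = 0 := sub_eq_zero.2 h
      have h' : 2 • m = -(k - m - (k + m)) := by simp only [nsmul_eq_mul]; push_cast; ring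
      rw [h', this, neg_zero]
  · simp only [Finset.mem_insert, Finset.mem_singleton, not_or]
    refine ⟨?_, ?_, ?_⟩
    · intro h
      apply hm1
      have : k - (k - m) = 0 := sub_eq_zero.2 h
      have h' : m = k - (k - m) := by ring
      rw [h', this]
    · intro h
      apply hm2
      have : k - (k - 2 • m) = 0 := sub_eq_zero.2 h
      have h' : 2 • m = k - (k - 2 • m) := by ring
      rw [h', this]
    · intro h
      apply hm1
      have : k - (k + m) = 0 := sub_eq_zero.2 h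
      have h' : m = -(k - (k + m)) := by ring
      rw [h', this, neg_zero]

lemma third_kind {N : ℕ} (hn : n = N + 1) {x : ℝ} (h0 : 0 ≤ x) (h1 : x ≤ 1) {m k : ZMod n}
    (hk0 : k ≠ 0) (hk1 : m ≠ k) (hk2 : m ≠ -k) :
    cp (tp m x) N k + cp (tp m x) N (k - m) = 0 ∨
    (3 ≤ N ∧ (3 * N - 1 : ℝ) * (cp (tp m x) N k + cp (tp m x) N (k - m)) ≤ 2 * N) := by
  have hg0 : (0 : ℕ) • m ≠ k := by rw [zero_nsmul]; exact hk0.symm
  have hg1 : (1 : ℕ) • m ≠ k := by rw [one_nsmul]; exact hk1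
  have hgn : (N + 1) • m ≠ k := by rw [← hn, nsmul_self_zero]; exact hk0.symm
  have hgN : N • m ≠ k := by
    intro h
    apply hk2
    have h' : (N + 1) • m = 0 := by rw [← hn, nsmul_self_zero]
    rw [succ_nsmul, h] at h'
    exact (neg_eq_of_add_eq_zero_right h').symm
  have hsub : ∀ j : ℕ, (j • m = k - m) ↔ ((j + 1) • m = k) := by
    intro j; rw [succ_nsmul, eq_sub_iff_add_eq]
  by_cases hJ : ∃ j, j ≤ N ∧ j • m = k
  swap
  · left
    push Not at hJ
    rw [sum_zero_of hJ, sum_zero_of, add_zero]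
    intro j hj h
    rw [hsub] at h
    rcases Nat.lt_or_ge j N with hlt | hge
    · exact hJ (j + 1) (by omega) h
    · have : j = N := by omega
      subst this
      exact hgn h
  right
  obtain ⟨j, hjN, hj⟩ := hJ
  have hj0 : j ≠ 0 := by rintro rfl; exact hg0 hj
  have hj1 : j ≠ 1 := by rintro rfl; exact hg1 hj
  have hj2 : j ≠ N := by rintro rfl; exact hgN hj
  have hN3 : 3 ≤ N := by omega
  refine ⟨hN3, ?_⟩
  have hm1 : m ≠ 0 := by
    rintro rfl; rw [nsmul_zero] at hj; exact hk0 hj.symm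
  have hm2 : 2 • m ≠ 0 := by
    intro h
    rcases Nat.even_or_odd' j with ⟨c, hc | hc⟩
    · rw [hc, mul_comm, mul_nsmul', h, nsmul_zero] at hj; exact hk0 hj.symm
    · rw [hc, succ_nsmul, mul_comm, mul_nsmul', h, nsmul_zero, zero_add] at hj; exact hk1 hj
  have hm3 : 3 • m ≠ 0 := by
    intro h
    have hmod : j = j / 3 * 3 + j % 3 := by omega
    have hlt : j % 3 < 3 := Nat.mod_lt _ (by norm_num)
    rw [hmod, add_nsmul, mul_nsmul', h, nsmul_zero, zero_add] at hj
    interval_cases hr : j % 3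
    · exact hg0 hj
    · exact hg1 hj
    · apply hk2
      have : m + k = 0 := by rw [← hj, ← h]; rw [← succ_nsmul']
      exact (neg_eq_of_add_eq_zero_left this).symm
  obtain ⟨L, rfl⟩ : ∃ L, N = L + 2 := ⟨N - 2, by omega⟩
  set q := bw (L + 2) x with hq
  have hq0 : ∀ i, 0 ≤ q i := bw_nonneg _ h0 h1
  set g : ℕ → ℝ := fun t => if t • m = k then 1 else 0 with hg
  have hgnn : ∀ t, 0 ≤ g t := by intro t; simp only [hg]; split_ifs <;> norm_num
  have g0 : g 0 = 0 := by simp only [hg]; rw [if_neg hg0]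
  have g1 : g 1 = 0 := by simp only [hg]; rw [if_neg hg1]
  have gL : g (L + 2) = 0 := by simp only [hg]; rw [if_neg hgN]
  have gL' : g (L + 2 + 1) = 0 := by simp only [hg]; rw [if_neg hgn]
  have w1 : cp (tp m x) (L + 2) k = ∑ i ∈ range L, q (i + 2) * g (i + 2) := by
    rw [cp_tp', Finset.sum_range_succ, Finset.sum_range_succ', Finset.sum_range_succ']
    have e1 : (if (L + 2) • m = k then (1 : ℝ) else 0) = 0 := gL
    have e2 : (if 0 • m = k then (1 : ℝ) else 0) = 0 := g0
    have e3 : (if (0 + 1) • m = k then (1 : ℝ) else 0) = 0 := g1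
    rw [e1, e2, e3]
    simp only [mul_zero, add_zero]
    rfl
  have w2 : cp (tp m x) (L + 2) (k - m) = ∑ i ∈ range L, q (i + 1) * g (i + 2) := by
    rw [cp_tp', Finset.sum_range_succ, Finset.sum_range_succ, Finset.sum_range_succ']
    simp only [hsub]
    have e1 : (if (L + 2 + 1) • m = k then (1 : ℝ) else 0) = 0 := gL'
    have e2 : (if (0 + 1) • m = k then (1 : ℝ) else 0) = 0 := g1
    have e3 : (if (L + 1 + 1) • m = k then (1 : ℝ) else 0) = 0 := gL
    rw [e1, e2, e3]
    simp only [mul_zero, add_zero]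
    rfl
  have w3 : ∑ i ∈ range L, q i * g (i + 2) ≤ cp (tp m x) (L + 2) (k - 2 • m) := by
    rw [cp_tp', Finset.sum_range_succ, Finset.sum_range_succ, Finset.sum_range_succ]
    have e : ∀ i : ℕ, (if i • m = k - 2 • m then (1 : ℝ) else 0) = g (i + 2) := by
      intro i
      simp only [hg]
      have : (i • m = k - 2 • m) ↔ ((i + 2) • m = k) := by
        rw [add_nsmul, eq_sub_iff_add_eq]
      simp only [this]
    simp only [e]
    have h1 : 0 ≤ bw (L + 2) x L * g (L + 2) := mul_nonneg (hq0 _) (hgnn _)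
    have h2 : 0 ≤ bw (L + 2) x (L + 1) * g (L + 1 + 2) := mul_nonneg (hq0 _) (hgnn _)
    have h3 : 0 ≤ bw (L + 2) x (L + 2) * g (L + 2 + 2) := mul_nonneg (hq0 _) (hgnn _)
    linarith
  have w4 : ∑ i ∈ range L, q (i + 3) * g (i + 2) ≤ cp (tp m x) (L + 2) (k + m) := by
    rw [cp_tp', Finset.sum_range_succ', Finset.sum_range_succ', Finset.sum_range_succ']
    have e : ∀ i : ℕ, (if (i + 1) • m = k + m then (1 : ℝ) else 0) = g i := by
      intro i
      simp only [hg]
      have : ((i + 1) • m = k + m) ↔ (i • m = k) := by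
        rw [succ_nsmul, add_left_inj]
      simp only [this]
    simp only [e]
    have h1 : 0 ≤ bw (L + 2) x 0 * (if 0 • m = k + m then (1 : ℝ) else 0) :=
      mul_nonneg (hq0 _) (by split_ifs <;> norm_num)
    have h2 : 0 ≤ bw (L + 2) x (0 + 1) * g 0 := mul_nonneg (hq0 _) (hgnn _)
    have h3 : 0 ≤ bw (L + 2) x (0 + 1 + 1) * g (0 + 1) := mul_nonneg (hq0 _) (hgnn _)
    have h4 : ∑ i ∈ range L, q (i + 3) * g (i + 2) =
      ∑ i ∈ range L, bw (L + 2) x (i + 1 + 1 + 1) * g (i + 1 + 1) := rfl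
    rw [h4]
    linarith
  have hfour := four_le (N := L + 2) (k := k) h0 h1 hm1 hm2 hm3
  have hL : 1 ≤ L := by omega
  have hL' : (1 : ℝ) ≤ L := by exact_mod_cast hL
  set K : ℝ := ((L + 2 : ℝ) - 1) / (2 * (L + 2)) with hK
  have hKpos : 0 < K := by rw [hK]; apply div_pos <;> linarith
  have hterm : ∀ i ∈ range L, K * (q (i + 2) * g (i + 2) + q (i + 1) * g (i + 2)) ≤
      q (i + 3) * g (i + 2) + q i * g (i + 2) := by
    intro i hi
    have hi' := Finset.mem_range.1 hi
    have l1 := binom_logconc (L + 2) (i + 1) (by omega) h0 h1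
    have l2 := binom_logconc (L + 2) i (by omega) h0 h1
    have c1 : K * (q (i + 2)) ^ 2 ≤ q (i + 3) * q (i + 1) := by
      rw [hK, div_mul_eq_mul_div, div_le_iff₀ (by positivity)]
      have : ((L + 2 : ℕ) : ℝ) = (L : ℝ) + 2 := by push_cast; ring
      rw [this] at l1
      have e1 : q (i + 2) = ((L + 2).choose (i + 1 + 1) : ℝ) * x ^ (i + 1 + 1) * (1 - x) ^ (L + 2 - (i + 1 + 1)) := rfl
      have e2 : q (i + 3) = ((L + 2).choose (i + 1 + 2) : ℝ) * x ^ (i + 1 + 2) * (1 - x) ^ (L + 2 - (i + 1 + 2)) := rfl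
      have e3 : q (i + 1) = ((L + 2).choose (i + 1) : ℝ) * x ^ (i + 1) * (1 - x) ^ (L + 2 - (i + 1)) := rfl
      rw [e1, e2, e3]
      linarith
    have c2 : K * (q (i + 1)) ^ 2 ≤ q i * q (i + 2) := by
      rw [hK, div_mul_eq_mul_div, div_le_iff₀ (by positivity)]
      have : ((L + 2 : ℕ) : ℝ) = (L : ℝ) + 2 := by push_cast; ring
      rw [this] at l2
      have e1 : q (i + 2) = ((L + 2).choose (i + 2) : ℝ) * x ^ (i + 2) * (1 - x) ^ (L + 2 - (i + 2)) := rfl
      have e2 : q i = ((L + 2).choose i : ℝ) * x ^ i * (1 - x) ^ (L + 2 - i) := rfl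
      have e3 : q (i + 1) = ((L + 2).choose (i + 1) : ℝ) * x ^ (i + 1) * (1 - x) ^ (L + 2 - (i + 1)) := rfl
      rw [e1, e2, e3]
      linarith
    have c3 := four_ineq (hq0 (i + 2)) (hq0 (i + 1)) (hq0 (i + 3)) (hq0 i) hKpos c1 c2
    have := mul_le_mul_of_nonneg_right c3 (hgnn (i + 2))
    linarith
  have hsum := Finset.sum_le_sum hterm
  rw [← Finset.mul_sum, Finset.sum_add_distrib, Finset.sum_add_distrib, ← w1, ← w2] at hsum
  have hfin : (1 + K) * (cp (tp m x) (L + 2) k + cp (tp m x) (L + 2) (k - m)) ≤ 1 := by linarith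
  have hK1 : 1 + K = (3 * (L + 2 : ℝ) - 1) / (2 * (L + 2)) := by rw [hK]; field_simp; ring
  rw [hK1, div_mul_eq_mul_div, div_le_iff₀ (by positivity)] at hfin
  push_cast
  linarith

/-- `Pr(Bin(n,x) ≡ 1 mod d)` -/
noncomputable def bin1 (n d : ℕ) (x : ℝ) : ℝ :=
  ∑ j ∈ (range (n + 1)).filter (fun j => j ≡ 1 [MOD d]), (n.choose j : ℝ) * x ^ j * (1 - x) ^ (n - j)

lemma cp_tp_k (k : ZMod n) (x : ℝ) (r : ℕ) :
    cp (tp k x) r k = bin1 r (addOrderOf k) x := by
  rw [cp_tp, bin1, Finset.sum_filter]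
  refine Finset.sum_congr rfl fun j _ => ?_
  have : (j • k = k) ↔ (j ≡ 1 [MOD addOrderOf k]) := by
    conv_lhs => rhs; rw [← one_nsmul k]
    exact nsmul_eq_nsmul_iff_modEq
  simp only [this]
  split_ifs <;> simp

lemma cp_tp_neg (k : ZMod n) (x : ℝ) :
    cp (tp (-k) x) n k = bin1 n (addOrderOf k) (1 - x) := by
  rw [← cp_tp_k, cp_tp, cp_tp, ← Finset.sum_range_reflect]
  refine Finset.sum_congr rfl fun j hj => ?_
  have hj' : j ≤ n := by have := Finset.mem_range.1 hj; omega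
  have e1 : n + 1 - 1 - j = n - j := by omega
  rw [e1, Nat.choose_symm hj', Nat.sub_sub_self hj']
  have : ((n - j) • (-k) = k) ↔ (j • k = k) := by
    have : (n - j) • (-k) = j • k := by
      have h1 : (n - j) • (-k) + j • (-k) = 0 := by
        rw [← add_nsmul, Nat.sub_add_cancel hj', nsmul_self_zero]
      have h2 : j • (-k) = -(j • k) := by rw [neg_nsmul]
      rw [h2] at h1
      exact eq_of_sub_eq_zero (by rw [sub_eq_add_neg]; exact h1)
    rw [this]
  simp only [this, sub_sub_cancel]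
  split_ifs <;> ring

lemma bin1_ge (N : ℕ) (hN : 1 ≤ N) (d : ℕ) :
    ((N : ℝ) / (N + 1)) ^ N ≤ bin1 (N + 1) d (1 / (N + 1 : ℝ)) := by
  have hx0 : (0 : ℝ) ≤ 1 / (N + 1 : ℝ) := by positivity
  have hx1 : 1 / (N + 1 : ℝ) ≤ 1 := by
    rw [div_le_one (by positivity)]
    have : (0 : ℝ) ≤ N := Nat.cast_nonneg N
    linarith
  have h := Finset.single_le_sum (s := (range (N + 1 + 1)).filter (fun j => j ≡ 1 [MOD d]))
    (f := fun j => bw (N + 1) (1 / (N + 1 : ℝ)) j) (fun i _ => bw_nonneg _ hx0 hx1 i) (a := 1)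
    (Finset.mem_filter.2 ⟨Finset.mem_range.2 (by omega), Nat.ModEq.refl 1⟩)
  refine le_trans (le_of_eq ?_) h
  simp only [bw, Nat.choose_one_right, pow_one, Nat.add_sub_cancel]
  have : (1 - 1 / (N + 1 : ℝ)) = (N : ℝ) / (N + 1) := by field_simp; ring
  rw [this]
  push_cast
  field_simp

/-- main upper bound -/
theorem exists_best {N : ℕ} (hN : 1 ≤ N) (hn : n = N + 1) {k : ZMod n} (hk0 : k ≠ 0) :
    ∃ y : ℝ, 0 ≤ y ∧ y ≤ 1 ∧ ∀ q : ZMod n → ℝ, (∀ a, 0 ≤ q a) → ∑ a, q a = 1 →
      cp q n k ≤ bin1 n (addOrderOf k) y := by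
  obtain ⟨p, hp, hs, hmax⟩ := exists_max N k
  set F := cp p (N + 1) k with hF
  have hlow : ∀ y : ℝ, 0 ≤ y → y ≤ 1 → bin1 (N + 1) (addOrderOf k) y ≤ F := by
    intro y h0 h1
    rw [← cp_tp_k]
    exact hmax _ (tp_nonneg k h0 h1) (tp_sum k y)
  have hF3 : (1 : ℝ) / 3 < F := by
    refine (third_num N hN).trans_le ((bin1_ge N hN (addOrderOf k)).trans (hlow _ (by positivity) ?_))
    rw [div_le_one (by positivity)]
    have : (0 : ℝ) ≤ N := Nat.cast_nonneg N
    linarith
  have hsupp := supp_bound hp hs N k hmax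
  set T := Finset.univ.filter fun i => 0 < p i with hT
  have hcard : T.card ≤ 2 := by
    by_contra hc
    push Not at hc
    have : (3 : ℝ) ≤ T.card := by exact_mod_cast hc
    have h2 : (3 : ℝ) * F ≤ T.card * F := by
      apply mul_le_mul_of_nonneg_right this; linarith
    linarith
  have hzero : ∀ i, i ∉ T → p i = 0 := by
    intro i hi
    have : ¬ (0 < p i) := fun h => hi (Finset.mem_filter.2 ⟨Finset.mem_univ _, h⟩)
    exact le_antisymm (not_lt.1 this) (hp i)
  have hsT : ∑ a ∈ T, p a = 1 := by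
    rw [← hs]
    exact Finset.sum_subset (Finset.subset_univ _) fun i _ hi => hzero i hi
  -- T has exactly two elements or one
  have hTab : ∃ a b : ZMod n, a ∈ T ∧ b ∈ T ∧ T = {a, b} := by
    have hne : T.Nonempty := by
      rw [Finset.nonempty_iff_ne_empty]
      intro h
      rw [h] at hsT
      simp at hsT
    have hpos := Finset.card_pos.2 hne
    rcases (show T.card = 1 ∨ T.card = 2 by omega) with h | h
    · obtain ⟨a, ha⟩ := Finset.card_eq_one.1 h
      exact ⟨a, a, by rw [ha]; simp, by rw [ha]; simp, by rw [ha]; simp⟩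
    · obtain ⟨a, b, _, ha⟩ := Finset.card_eq_two.1 h
      exact ⟨a, b, by rw [ha]; simp, by rw [ha]; simp, ha⟩
  obtain ⟨a, b, haT, hbT, hTe⟩ := hTab
  have hpa : 0 < p a := (Finset.mem_filter.1 haT).2
  have hpb : 0 < p b := (Finset.mem_filter.1 hbT).2
  have hGa := max_cond_eq hp hs N k hmax a hpa
  have hGb := max_cond_eq hp hs N k hmax b hpb
  -- the weight
  obtain ⟨x, hx0, hx1, hpx⟩ : ∃ x : ℝ, 0 ≤ x ∧ x ≤ 1 ∧
      ∀ t, p t = (1 - x) * (if t = a then 1 else 0) + x * (if t = b then 1 else 0) := by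
    by_cases hab : a = b
    · subst hab
      refine ⟨0, le_refl _, zero_le_one, ?_⟩
      intro t
      have h1 : p a = 1 := by
        rw [hTe] at hsT; simpa using hsT
      by_cases ht : t = a
      · subst ht; simp [h1]
      · rw [hzero t (by rw [hTe]; simp [ht])]; simp [ht]
    · have h1 : p a + p b = 1 := by
        rw [hTe, Finset.sum_pair hab] at hsT; exact hsT
      refine ⟨p b, hpb.le, by linarith, ?_⟩
      intro t
      by_cases ht : t = a
      · subst ht; rw [if_pos rfl, if_neg hab]; linarith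
      · by_cases ht' : t = b
        · subst ht'; rw [if_neg ht, if_pos rfl]; ring
        · rw [hzero t (by rw [hTe]; simp [ht, ht']), if_neg ht, if_neg ht']; ring
  have hshift : (fun t => p (t + a)) = tp (b - a) x := by
    funext t
    rw [hpx]
    unfold tp
    have e1 : (t + a = a) ↔ t = 0 := by simp
    have e2 : (t + a = b) ↔ t = b - a := by rw [eq_sub_iff_add_eq]
    simp only [e1, e2]
  have hFn : cp (tp (b - a) x) n k = F := by
    rw [← hshift, cp_shift, nsmul_self_zero, add_zero, hF]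
    exact congrArg (fun r => cp p r k) hn
  have hNa : N • a = -a := by
    have : (N + 1) • a = 0 := by rw [← hn, nsmul_self_zero]
    rw [succ_nsmul] at this
    exact eq_neg_of_add_eq_zero_left this
  have hw1 : cp (tp (b - a) x) N k = F := by
    rw [← hshift, cp_shift, hNa, ← sub_eq_add_neg, hGa]
  have hw2 : cp (tp (b - a) x) N (k - (b - a)) = F := by
    rw [← hshift, cp_shift, hNa]
    have : k - (b - a) + -a = k - b := by ring
    rw [this, hGb]
  have hfin : ∃ y : ℝ, 0 ≤ y ∧ y ≤ 1 ∧ F ≤ bin1 n (addOrderOf k) y := by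
    by_cases hm1 : b - a = k
    · refine ⟨x, hx0, hx1, ?_⟩
      rw [← cp_tp_k, ← hFn, hm1]
    by_cases hm2 : b - a = -k
    · refine ⟨1 - x, by linarith, by linarith, ?_⟩
      rw [← cp_tp_neg, ← hFn, hm2]
    rcases third_kind hn hx0 hx1 hk0 hm1 hm2 with h | ⟨h3, h⟩
    · exfalso
      rw [hw1, hw2] at h
      linarith
    · refine ⟨1 / (N + 1 : ℝ), by positivity, ?_, ?_⟩
      · rw [div_le_one (by positivity)]
        have : (0 : ℝ) ≤ N := Nat.cast_nonneg N
        linarith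
      · rw [hw1, hw2] at h
        have h3' : (3 : ℝ) ≤ N := by exact_mod_cast h3
        have h4 : F ≤ (N : ℝ) / (3 * N - 1) := by
          rw [le_div_iff₀ (by linarith)]
          linarith
        refine h4.trans ((third_cmp N h3).trans ?_)
        have := bin1_ge N hN (addOrderOf k)
        have h5 : bin1 n (addOrderOf k) (1 / (N + 1 : ℝ)) = bin1 (N + 1) (addOrderOf k) (1 / (N + 1 : ℝ)) :=
          congrArg (fun r => bin1 r (addOrderOf k) (1 / (N + 1 : ℝ))) hn
        rw [h5]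
        exact this
  obtain ⟨y, hy0, hy1, hy⟩ := hfin
  refine ⟨y, hy0, hy1, ?_⟩
  intro q hq hq'
  refine le_trans ?_ hy
  have h6 := hmax q hq hq'
  have h7 : cp q n k = cp q (N + 1) k := congrArg (fun r => cp q r k) hn
  rw [h7]
  exact h6

end Q151.Dice
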