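import Pool.Agent.Q151.Dice.Conv

/-!
Two-point weights and the binomial distribution.
-/

namespace Q151.Dice

open Finset

/-- Pascal step for binomial expectations. -/
lemma binom_step (r : ℕ) (x : ℝ) (g : ℕ → ℝ) :
    ∑ j ∈ range (r + 2), ((r + 1).choose j : ℝ) * x ^ j * (1 - x) ^ (r + 1 - j) * g j =
      ∑ j ∈ range (r + 1), (r.choose j : ℝ) * x ^ j * (1 - x) ^ (r - j) *
        ((1 - x) * g j + x * g (j + 1)) := by
  have h1 : ∀ j ∈ range (r + 1), ((r + 1).choose (j + 1) : ℝ) * x ^ (j + 1) *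
      (1 - x) ^ (r + 1 - (j + 1)) * g (j + 1) =
      (r.choose j : ℝ) * x ^ j * (1 - x) ^ (r - j) * (x * g (j + 1)) +
      (r.choose (j + 1) : ℝ) * x ^ (j + 1) * (1 - x) ^ (r - j) * g (j + 1) := by
    intro j _
    rw [Nat.choose_succ_succ]
    have : r + 1 - (j + 1) = r - j := by omega
    rw [this]
    push_cast
    ring
  rw [Finset.sum_range_succ' _ (r + 1), Finset.sum_congr rfl h1, Finset.sum_add_distrib]
  simp only [mul_add, Finset.sum_add_distrib]
  have h2 : ∑ j ∈ range (r + 1), (r.choose j : ℝ) * x ^ j * (1 - x) ^ (r - j) * ((1 - x) * g j) =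
      ∑ j ∈ range (r + 1), (r.choose (j + 1) : ℝ) * x ^ (j + 1) * (1 - x) ^ (r - j) * g (j + 1) +
      (1 - x) ^ (r + 1) * g 0 := by
    rw [Finset.sum_range_succ' _ r, Finset.sum_range_succ _ r]
    rw [Nat.choose_succ_self]
    simp only [Nat.choose_zero_right, Nat.cast_one, pow_zero, Nat.sub_zero, Nat.cast_zero,
      zero_mul, add_zero, one_mul, mul_one]
    have : ∀ j ∈ range r, (r.choose (j + 1) : ℝ) * x ^ (j + 1) * (1 - x) ^ (r - (j + 1)) *
        ((1 - x) * g (j + 1)) = (r.choose (j + 1) : ℝ) * x ^ (j + 1) * (1 - x) ^ (r - j) * g (j + 1) := by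
      intro j hj
      have hj' := Finset.mem_range.1 hj
      have : r - j = (r - (j + 1)) + 1 := by omega
      rw [this, pow_succ]; ring
    rw [Finset.sum_congr rfl this, pow_succ]
    ring
  rw [h2]
  simp
  ring

variable {n : ℕ} [NeZero n]

/-- the two point weight at `0` and `m`. -/
noncomputable def tp (m : ZMod n) (x : ℝ) (t : ZMod n) : ℝ :=
  (1 - x) * (if t = 0 then 1 else 0) + x * (if t = m then 1 else 0)

lemma cp_tp_succ (m : ZMod n) (x : ℝ) (r : ℕ) (s : ZMod n) :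
    cp (tp m x) (r + 1) s = (1 - x) * cp (tp m x) r s + x * cp (tp m x) r (s - m) := by
  rw [cp_succ]
  simp only [tp, add_mul, Finset.sum_add_distrib]
  congr 1
  · rw [Finset.sum_eq_single 0]
    · simp
    · intro b _ hb; simp [hb]
    · intro h; exact absurd (Finset.mem_univ _) h
  · rw [Finset.sum_eq_single m]
    · simp
    · intro b _ hb; simp [hb]
    · intro h; exact absurd (Finset.mem_univ _) h

lemma cp_tp (m : ZMod n) (x : ℝ) (r : ℕ) (s : ZMod n) :
    cp (tp m x) r s = ∑ j ∈ range (r + 1), (r.choose j : ℝ) * x ^ j * (1 - x) ^ (r - j) *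
      (if j • m = s then 1 else 0) := by
  induction r generalizing s with
  | zero =>
    simp only [cp_zero, zero_add, Finset.sum_range_one]
    simp [eq_comm]
  | succ r ih =>
    rw [cp_tp_succ, ih, ih, binom_step, Finset.mul_sum, Finset.mul_sum, ← Finset.sum_add_distrib]
    refine Finset.sum_congr rfl fun j _ => ?_
    have : (j • m = s - m) ↔ ((j + 1) • m = s) := by
      rw [succ_nsmul, eq_sub_iff_add_eq]
    simp only [this]
    ring

lemma tp_nonneg (m : ZMod n) {x : ℝ} (h0 : 0 ≤ x) (h1 : x ≤ 1) (t : ZMod n) : 0 ≤ tp m x t := by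
  unfold tp
  split_ifs <;> nlinarith

lemma tp_sum (m : ZMod n) (x : ℝ) : ∑ t, tp m x t = 1 := by
  simp only [tp, Finset.sum_add_distrib, ← Finset.mul_sum]
  simp

/-- log-concavity step of the binomial weights -/
lemma binom_logconc (N i : ℕ) (hi : i + 2 ≤ N) {x : ℝ} (h0 : 0 ≤ x) (h1 : x ≤ 1) :
    ((N : ℝ) - 1) * ((N.choose (i + 1) : ℝ) * x ^ (i + 1) * (1 - x) ^ (N - (i + 1))) ^ 2 ≤
      (2 * N) * (((N.choose (i + 2) : ℝ) * x ^ (i + 2) * (1 - x) ^ (N - (i + 2))) *
        ((N.choose i : ℝ) * x ^ i * (1 - x) ^ (N - i))) := by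
  obtain ⟨M, rfl⟩ : ∃ M, N = i + 2 + M := ⟨N - (i + 2), by omega⟩
  have e1 : i + 2 + M - (i + 1) = M + 1 := by omega
  have e2 : i + 2 + M - (i + 2) = M := by omega
  have e3 : i + 2 + M - i = M + 2 := by omega
  rw [e1, e2, e3]
  set A : ℝ := ((i + 2 + M).choose i : ℝ) with hA
  set B : ℝ := ((i + 2 + M).choose (i + 1) : ℝ) with hB
  set C : ℝ := ((i + 2 + M).choose (i + 2) : ℝ) with hC
  have r1 : B * (i + 1) = A * (M + 2) := by
    have := Nat.choose_succ_right_eq (i + 2 + M) i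
    rw [e3] at this
    have h := congrArg (Nat.cast : ℕ → ℝ) this
    push_cast at h
    rw [hA, hB]; linarith
  have r2 : C * (i + 2) = B * (M + 1) := by
    have := Nat.choose_succ_right_eq (i + 2 + M) (i + 1)
    rw [e1] at this
    have h := congrArg (Nat.cast : ℕ → ℝ) this
    push_cast at h
    rw [hC, hB]; linarith
  have hi0 : (0 : ℝ) ≤ i := Nat.cast_nonneg i
  have hM0 : (0 : ℝ) ≤ M := Nat.cast_nonneg M
  have hAC : A * C * ((M + 2) * (i + 2)) = B ^ 2 * ((i + 1) * (M + 1)) := by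
    calc A * C * ((M + 2) * (i + 2)) = (A * (M + 2)) * (C * (i + 2)) := by ring
      _ = B ^ 2 * ((i + 1) * (M + 1)) := by rw [← r1, r2]; ring
  have hB0 : 0 ≤ B := Nat.cast_nonneg _
  -- numeric inequality
  have hnum : ((i + 2 + M : ℝ) - 1) * ((M + 2) * (i + 2)) ≤ 2 * (i + 2 + M) * ((i + 1) * (M + 1)) := by
    nlinarith [mul_nonneg hi0 hM0, mul_nonneg (mul_nonneg hi0 hM0) hi0, mul_nonneg (mul_nonneg hi0 hM0) hM0]
  have hmain : ((i + 2 + M : ℝ) - 1) * B ^ 2 ≤ 2 * (i + 2 + M) * (A * C) := by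
    have hpos : (0 : ℝ) < (M + 2) * (i + 2) := by positivity
    have : ((i + 2 + M : ℝ) - 1) * B ^ 2 * ((M + 2) * (i + 2)) ≤ 2 * (i + 2 + M) * (A * C) * ((M + 2) * (i + 2)) := by
      have h5 : 2 * (i + 2 + M : ℝ) * (A * C) * ((M + 2) * (i + 2)) = B ^ 2 * (2 * (i + 2 + M) * ((i + 1) * (M + 1))) := by
        rw [mul_assoc (2 * (i + 2 + M : ℝ)), hAC]; ring
      rw [h5]
      have := mul_le_mul_of_nonneg_left hnum (sq_nonneg B)
      linarith
    exact le_of_mul_le_mul_right this hpos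
  have hx : 0 ≤ (x ^ (i + 1) * (1 - x) ^ (M + 1)) ^ 2 := sq_nonneg _
  have := mul_le_mul_of_nonneg_right hmain hx
  push_cast
  calc ((i : ℝ) + 2 + M - 1) * (B * x ^ (i + 1) * (1 - x) ^ (M + 1)) ^ 2
      = ((i + 2 + M : ℝ) - 1) * B ^ 2 * (x ^ (i + 1) * (1 - x) ^ (M + 1)) ^ 2 := by ring
    _ ≤ 2 * (i + 2 + M) * (A * C) * (x ^ (i + 1) * (1 - x) ^ (M + 1)) ^ 2 := this
    _ = 2 * ((i : ℝ) + 2 + M) * (C * x ^ (i + 2) * (1 - x) ^ M * (A * x ^ i * (1 - x) ^ (M + 2))) := by ring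

/-- real inequality used at each position -/
lemma four_ineq {a b c e K : ℝ} (ha : 0 ≤ a) (hb : 0 ≤ b) (hc : 0 ≤ c) (he : 0 ≤ e) (hK : 0 < K)
    (h1 : K * a ^ 2 ≤ c * b) (h2 : K * b ^ 2 ≤ e * a) : K * (a + b) ≤ c + e := by
  rcases ha.eq_or_lt with ha' | ha'
  · subst ha'
    have : b = 0 := by
      have : K * b ^ 2 ≤ 0 := by simpa using h2
      by_contra hb'
      have : 0 < b ^ 2 := by positivity
      nlinarith
    subst this; simp; positivity
  · rcases hb.eq_or_lt with hb' | hb'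
    · subst hb'
      exfalso
      have : K * a ^ 2 ≤ 0 := by simpa using h1
      have : 0 < K * a ^ 2 := by positivity
      linarith
    · -- multiply by a*b
      have hab : 0 < a * b := mul_pos ha' hb'
      have h3 : K * (a + b) * (a * b) ≤ (c + e) * (a * b) := by
        have h4 : K * a ^ 3 ≤ c * b * a := by nlinarith
        have h5 : K * b ^ 3 ≤ e * a * b := by nlinarith
        have h6 : K * ((a + b) * (a * b)) ≤ K * (a ^ 3 + b ^ 3) := by
          apply mul_le_mul_of_nonneg_left _ hK.le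
          nlinarith [mul_nonneg (add_nonneg ha hb) (sq_nonneg (a - b))]
        nlinarith
      exact le_of_mul_le_mul_right h3 hab

end Q151.Dice
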